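import Pool.Agent.Helper89.Slab.Defs

/-!
Continuity and differentiability of the averages (module S5 of the project SLAB).
-/

namespace Slab

open MeasureTheory Set

theorem continuous_A {φ : ℝ → ℝ} (h : Continuous φ) (x : ℝ) : Continuous (A x φ) := by
  unfold A
  refine intervalIntegral.continuous_parametric_intervalIntegral_of_continuous' ?_ _ _
  exact h.comp (by fun_prop)

namespace Deriv

theorem A_zero (φ : ℝ → ℝ) (s : ℝ) : A 0 φ s = 2 * φ s := by
  unfold A
  simp
  norm_num

theorem A_eq {x : ℝ} (hx : x ≠ 0) (φ : ℝ → ℝ) (s : ℝ) :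
    A x φ s = x⁻¹ * ∫ v in (s - x)..(s + x), φ v := by
  unfold A
  rw [intervalIntegral.integral_comp_sub_mul (fun v => φ v) hx s, smul_eq_mul]
  congr 2 <;> ring

end Deriv

theorem hasDerivAt_A {r D : ℝ → ℝ} (h : ∀ s, HasDerivAt r (D s) s) (hD : Continuous D) (x : ℝ) :
    ∀ s, HasDerivAt (A x r) (A x D s) s := by
  intro s
  by_cases hx : x = 0
  · subst hx
    have e : A 0 r = fun s => 2 * r s := by funext s; exact Deriv.A_zero r s
    rw [e, Deriv.A_zero]
    exact (h s).const_mul 2
  · have hr : Continuous r := continuous_iff_continuousAt.2 fun s => (h s).continuousAt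
    have hint : ∀ a b, IntervalIntegrable r volume a b := fun a b => hr.intervalIntegrable a b
    have e : A x r = fun s => x⁻¹ * ((∫ v in (0 : ℝ)..(s + x), r v) -
        ∫ v in (0 : ℝ)..(s - x), r v) := by
      funext s
      rw [Deriv.A_eq hx, intervalIntegral.integral_interval_sub_left (hint _ _) (hint _ _)]
    have e2 : A x D s = x⁻¹ * (r (s + x) - r (s - x)) := by
      rw [Deriv.A_eq hx, intervalIntegral.integral_eq_sub_of_hasDerivAt (fun v _ => h v)
        (hD.intervalIntegrable _ _)]
    rw [e, e2]
    have p : ∀ t, HasDerivAt (fun t => ∫ v in (0 : ℝ)..t, r v) (r t) t := fun t =>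
      intervalIntegral.integral_hasDerivAt_right (hint _ _)
        (hr.stronglyMeasurableAtFilter _ _) hr.continuousAt
    have p1 : HasDerivAt (fun s => ∫ v in (0 : ℝ)..(s + x), r v) (r (s + x)) s := by
      have := (p (s + x)).comp s ((hasDerivAt_id s).add_const x)
      simpa [Function.comp_def] using this
    have p2 : HasDerivAt (fun s => ∫ v in (0 : ℝ)..(s - x), r v) (r (s - x)) s := by
      have := (p (s - x)).comp s ((hasDerivAt_id s).sub_const x)
      simpa [Function.comp_def] using this
    exact (p1.sub p2).const_mul x⁻¹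

theorem A_sub {φ ψ : ℝ → ℝ} (hφ : Continuous φ) (hψ : Continuous ψ) (x : ℝ) :
    A x (fun s => φ s - ψ s) = fun s => A x φ s - A x ψ s := by
  funext s
  unfold A
  have c1 : Continuous fun u : ℝ => φ (s - x * u) := hφ.comp (by fun_prop)
  have c2 : Continuous fun u : ℝ => ψ (s - x * u) := hψ.comp (by fun_prop)
  exact intervalIntegral.integral_sub (c1.intervalIntegrable _ _) (c2.intervalIntegrable _ _)

end Slab
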