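import Pool.Agent.Helper89.Slab.Defs

/-!
The operators `A x` commute and depend on `|x|` only (module S8 of the project SLAB).
-/

namespace Slab

open MeasureTheory Set

namespace Perm

/-- bounded measurable functions -/
def Nice (φ : ℝ → ℝ) : Prop := Measurable φ ∧ ∃ C : ℝ, ∀ s, |φ s| ≤ C

theorem A_eq (x : ℝ) (φ : ℝ → ℝ) (s : ℝ) :
    A x φ s = ∫ u in Ioc (-1 : ℝ) 1, φ (s - x * u) := by
  unfold A
  exact intervalIntegral.integral_of_le (by norm_num)

theorem nice_A {φ : ℝ → ℝ} (h : Nice φ) (x : ℝ) : Nice (A x φ) := by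
  obtain ⟨hm, C, hC⟩ := h
  refine ⟨?_, 2 * C, ?_⟩
  · have h1 : A x φ = fun s => ∫ u, φ (s - x * u) ∂(volume.restrict (Ioc (-1 : ℝ) 1)) := by
      funext s; exact A_eq x φ s
    rw [h1]
    have h2 : StronglyMeasurable (Function.uncurry fun s u : ℝ => φ (s - x * u)) := by
      apply Measurable.stronglyMeasurable
      exact hm.comp (by fun_prop)
    exact h2.integral_prod_right.measurable
  · intro s
    unfold A
    have := intervalIntegral.norm_integral_le_of_norm_le_const (a := (-1 : ℝ)) (b := 1) (C := C)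
      (f := fun u => φ (s - x * u)) (fun u _ => hC _)
    rw [Real.norm_eq_abs] at this
    refine this.trans (le_of_eq ?_)
    norm_num
    ring

theorem nice_H : Nice H := by
  refine ⟨?_, 1, ?_⟩
  · unfold H
    exact Measurable.ite (measurableSet_Iio) measurable_const measurable_const
  · intro s
    unfold H
    split <;> simp

theorem nice_AL (l : List ℝ) : Nice (AL l H) := by
  induction l with
  | nil => exact nice_H
  | cons x l ih => rw [AL_cons]; exact nice_A ih x

theorem swap {φ : ℝ → ℝ} (h : Nice φ) (x y : ℝ) : A x (A y φ) = A y (A x φ) := by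
  obtain ⟨hm, C, hC⟩ := h
  funext s
  rw [A_eq, A_eq]
  have e1 : ∀ u, A y φ (s - x * u) = ∫ v in Ioc (-1 : ℝ) 1, φ (s - x * u - y * v) := fun u =>
    A_eq y φ _
  have e2 : ∀ v, A x φ (s - y * v) = ∫ u in Ioc (-1 : ℝ) 1, φ (s - y * v - x * u) := fun u =>
    A_eq x φ _
  simp only [e1, e2]
  have hint : Integrable (Function.uncurry fun u v : ℝ => φ (s - x * u - y * v))
      ((volume.restrict (Ioc (-1 : ℝ) 1)).prod (volume.restrict (Ioc (-1 : ℝ) 1))) := by
    refine Integrable.of_bound (C := C) ?_ ?_
    · exact (hm.comp (by fun_prop)).aestronglyMeasurable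
    · exact Filter.Eventually.of_forall fun p => hC _
  rw [integral_integral_swap hint]
  refine integral_congr_ae (Filter.Eventually.of_forall fun v => ?_)
  refine integral_congr_ae (Filter.Eventually.of_forall fun u => ?_)
  change φ (s - x * u - y * v) = φ (s - y * v - x * u)
  congr 1
  ring

theorem A_neg (x : ℝ) (φ : ℝ → ℝ) : A (-x) φ = A x φ := by
  funext s
  unfold A
  have := intervalIntegral.integral_comp_neg (a := (-1 : ℝ)) (b := 1) (fun u => φ (s - x * u))
  rw [neg_neg] at this
  rw [← this]
  refine intervalIntegral.integral_congr fun u _ => ?_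
  change φ (s - -x * u) = φ (s - x * -u)
  congr 1
  ring

theorem A_abs (x : ℝ) (φ : ℝ → ℝ) : A |x| φ = A x φ := by
  rcases abs_choice x with h | h
  · rw [h]
  · rw [h, A_neg]

end Perm

theorem AL_perm {l l' : List ℝ} (h : l.Perm l') : AL l H = AL l' H := by
  induction h with
  | nil => rfl
  | cons x _ ih => rw [AL_cons, AL_cons, ih]
  | swap x y l => rw [AL_cons, AL_cons, AL_cons, AL_cons]; exact Perm.swap (Perm.nice_AL l) y x
  | trans _ _ ih1 ih2 => exact ih1.trans ih2

theorem AL_abs (l : List ℝ) : AL (l.map (fun x => |x|)) H = AL l H := by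
  induction l with
  | nil => rfl
  | cons x l ih => rw [List.map_cons, AL_cons, AL_cons, ih, Perm.A_abs]

end Slab
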