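import Pool.Agent.Helper89.Slab.Defs

/-!
Finite combinatorics of the project SLAB (modules S9 and S10).
-/

namespace Slab

open MeasureTheory Set

theorem reduce (n : ℕ) (hn : 2 ≤ n) (Φ : (Fin n → ℝ) → ℝ)
    (step : ∀ a : Fin n → ℝ, (∀ i, 0 ≤ a i) → ∑ i, a i ^ 2 = 1 → ∀ i j, i ≠ j → ∀ x y : ℝ,
      0 ≤ x → 0 ≤ y → x ^ 2 + y ^ 2 = a i ^ 2 + a j ^ 2 → a i * a j < x * y →
      1 / ((n : ℝ) - 1) ≤ a i ^ 2 + a j ^ 2 →
      Φ a ≤ Φ (Function.update (Function.update a i x) j y)) :
    ∀ a : Fin n → ℝ, (∀ i, 0 ≤ a i) → ∑ i, a i ^ 2 = 1 → Φ a ≤ Φ (fun _ => 1 / Real.sqrt n) := by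
  have hn0 : (0 : ℝ) < n := by exact_mod_cast (by omega : 0 < n)
  have hn1 : (1 : ℝ) ≤ (n : ℝ) - 1 := by
    have : (2 : ℝ) ≤ n := by exact_mod_cast hn
    linarith
  set c : ℝ := 1 / Real.sqrt n with hc
  have hc0 : 0 < c := by rw [hc]; positivity
  have hc2 : c ^ 2 = 1 / n := by
    rw [hc, div_pow, Real.sq_sqrt hn0.le, one_pow]
  have hsumc : ∑ _i : Fin n, c ^ 2 = 1 := by
    rw [Finset.sum_const, Finset.card_univ, Fintype.card_fin, nsmul_eq_mul, hc2]
    field_simp
  have main : ∀ m : ℕ, ∀ a : Fin n → ℝ, (Finset.univ.filter fun k => a k ≠ c).card = m →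
      (∀ i, 0 ≤ a i) → ∑ i, a i ^ 2 = 1 → Φ a ≤ Φ (fun _ => c) := by
    intro m
    induction m using Nat.strong_induction_on with
    | _ m ih =>
      intro a hm ha hs
      by_cases hall : ∀ k, a k = c
      · have : a = fun _ => c := funext hall
        rw [this]
      · push Not at hall
        have : Nonempty (Fin n) := ⟨⟨0, by omega⟩⟩
        obtain ⟨i, hi⟩ := Finite.exists_max a
        obtain ⟨j, hj⟩ := Finite.exists_min a
        have hic : c < a i := by
          by_contra hle
          push Not at hle
          obtain ⟨k, hk⟩ := hall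
          have hle' : ∀ l, a l ^ 2 ≤ c ^ 2 := fun l =>
            pow_le_pow_left₀ (ha l) ((hi l).trans hle) 2
          have hlt : a k ^ 2 < c ^ 2 :=
            pow_lt_pow_left₀ (lt_of_le_of_ne ((hi k).trans hle) hk) (ha k) two_ne_zero
          have : ∑ l, a l ^ 2 < ∑ _l : Fin n, c ^ 2 :=
            Finset.sum_lt_sum (fun l _ => hle' l) ⟨k, Finset.mem_univ _, hlt⟩
          rw [hs, hsumc] at this
          exact lt_irrefl _ this
        have hjc : a j < c := by
          by_contra hle
          push Not at hle
          have hle' : ∀ l, c ^ 2 ≤ a l ^ 2 := fun l =>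
            pow_le_pow_left₀ hc0.le (hle.trans (hj l)) 2
          have hlt : c ^ 2 < a i ^ 2 := pow_lt_pow_left₀ hic hc0.le two_ne_zero
          have : ∑ _l : Fin n, c ^ 2 < ∑ l, a l ^ 2 :=
            Finset.sum_lt_sum (fun l _ => hle' l) ⟨i, Finset.mem_univ _, hlt⟩
          rw [hs, hsumc] at this
          exact lt_irrefl _ this
        have hij : i ≠ j := by
          rintro rfl
          exact absurd hic (not_lt.2 hjc.le)
        have hi2 : 1 / (n : ℝ) < a i ^ 2 := by
          rw [← hc2]; exact pow_lt_pow_left₀ hic hc0.le two_ne_zero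
        have hj2 : a j ^ 2 < 1 / (n : ℝ) := by
          rw [← hc2]; exact pow_lt_pow_left₀ hjc (ha j) two_ne_zero
        -- the size of the pair
        have hbig : 1 / ((n : ℝ) - 1) ≤ a i ^ 2 + a j ^ 2 := by
          have h1 : ∑ l, a l ^ 2 = a j ^ 2 + ∑ l ∈ Finset.univ.erase j, a l ^ 2 :=
            (Finset.add_sum_erase _ _ (Finset.mem_univ j)).symm
          have h2 : ∑ l ∈ Finset.univ.erase j, a l ^ 2 ≤ ((n : ℝ) - 1) * a i ^ 2 := by
            calc ∑ l ∈ Finset.univ.erase j, a l ^ 2 ≤ ∑ _l ∈ Finset.univ.erase j, a i ^ 2 :=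
                  Finset.sum_le_sum fun l _ => pow_le_pow_left₀ (ha l) (hi l) 2
              _ = ((n : ℝ) - 1) * a i ^ 2 := by
                  rw [Finset.sum_const, Finset.card_erase_of_mem (Finset.mem_univ j),
                    Finset.card_univ, Fintype.card_fin, nsmul_eq_mul, Nat.cast_sub (by omega),
                    Nat.cast_one]
          rw [div_le_iff₀ (by linarith)]
          have h3 : 0 ≤ a j ^ 2 := sq_nonneg _
          nlinarith
        set y : ℝ := Real.sqrt (a i ^ 2 + a j ^ 2 - 1 / n) with hy
        have hy0 : 0 ≤ y := Real.sqrt_nonneg _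
        have hy2 : y ^ 2 = a i ^ 2 + a j ^ 2 - 1 / n :=
          Real.sq_sqrt (by linarith [sq_nonneg (a j)])
        have hxy : c ^ 2 + y ^ 2 = a i ^ 2 + a j ^ 2 := by rw [hy2, hc2]; ring
        have hprod : a i * a j < c * y := by
          refine lt_of_pow_lt_pow_left₀ 2 (by positivity) ?_
          rw [mul_pow, mul_pow, hy2, hc2]
          nlinarith [mul_pos (sub_pos.2 hi2) (sub_pos.2 hj2)]
        have hstep := step a ha hs i j hij c y hc0.le hy0 hxy hprod hbig
        refine hstep.trans (ih _ ?_ _ rfl ?_ ?_)
        · rw [← hm]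
          refine Finset.card_lt_card ?_
          refine Finset.ssubset_iff_subset_ne.2 ⟨?_, ?_⟩
          · intro k hk
            rw [Finset.mem_filter] at hk ⊢
            refine ⟨Finset.mem_univ _, ?_⟩
            by_cases hkj : k = j
            · subst hkj; exact hjc.ne
            · rw [Function.update_of_ne hkj] at hk
              by_cases hki : k = i
              · subst hki; exact hic.ne'
              · rw [Function.update_of_ne hki] at hk
                exact hk.2
          · intro heq
            have h1 : i ∈ Finset.univ.filter fun k => a k ≠ c :=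
              Finset.mem_filter.2 ⟨Finset.mem_univ _, hic.ne'⟩
            rw [← heq, Finset.mem_filter, Function.update_of_ne hij, Function.update_self] at h1
            exact h1.2 rfl
        · intro k
          by_cases hkj : k = j
          · subst hkj; rw [Function.update_self]; exact hy0
          · rw [Function.update_of_ne hkj]
            by_cases hki : k = i
            · subst hki; rw [Function.update_self]; exact hc0.le
            · rw [Function.update_of_ne hki]; exact ha k
        · have h1 : ∑ l, (Function.update (Function.update a i c) j y l) ^ 2 =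
              y ^ 2 + (c ^ 2 + ∑ l ∈ (Finset.univ.erase j).erase i, a l ^ 2) := by
            rw [← Finset.add_sum_erase _ _ (Finset.mem_univ j), Function.update_self,
              ← Finset.add_sum_erase (Finset.univ.erase j) _
                (Finset.mem_erase.2 ⟨hij, Finset.mem_univ i⟩),
              Function.update_of_ne hij, Function.update_self]
            congr 2
            refine Finset.sum_congr rfl fun l hl => ?_
            rw [Finset.mem_erase, Finset.mem_erase] at hl
            rw [Function.update_of_ne hl.2.1, Function.update_of_ne hl.1]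
          have h2 : ∑ l, a l ^ 2 =
              a j ^ 2 + (a i ^ 2 + ∑ l ∈ (Finset.univ.erase j).erase i, a l ^ 2) := by
            rw [← Finset.add_sum_erase _ _ (Finset.mem_univ j),
              ← Finset.add_sum_erase (Finset.univ.erase j) _
                (Finset.mem_erase.2 ⟨hij, Finset.mem_univ i⟩)]
          rw [h1]
          rw [hs] at h2
          linarith
  intro a ha hs
  exact main _ a rfl ha hs

theorem exists_list {n : ℕ} (a : Fin n → ℝ) {i j : Fin n} (hij : i ≠ j) :
    ∃ l : List ℝ, ∀ x y : ℝ,
      (List.ofFn (Function.update (Function.update a i x) j y)).Perm (l ++ [x, y]) ∧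
      (l.map (fun x => x ^ 2)).sum = (∑ k, a k ^ 2) - a i ^ 2 - a j ^ 2 := by
  have hji : j ∈ Finset.univ.erase i := Finset.mem_erase.2 ⟨hij.symm, Finset.mem_univ _⟩
  refine ⟨(((Finset.univ.erase i).erase j).toList).map a, fun x y => ⟨?_, ?_⟩⟩
  · rw [← Multiset.coe_eq_coe, ← Fin.univ_val_map, ← Multiset.coe_add, ← Multiset.map_coe,
      Finset.coe_toList]
    have h1 : (Finset.univ : Finset (Fin n)).val =
        i ::ₘ j ::ₘ ((Finset.univ.erase i).erase j).val := by
      have hji' : j ∈ (Finset.univ.erase i : Finset (Fin n)).val := hji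
      rw [Finset.erase_val, Multiset.cons_erase hji', Finset.erase_val,
        Multiset.cons_erase (Finset.mem_univ i)]
    conv_lhs => rw [h1]
    rw [Multiset.map_cons, Multiset.map_cons, Function.update_self, Function.update_of_ne hij,
      Function.update_self]
    have h2 : Multiset.map (Function.update (Function.update a i x) j y)
        ((Finset.univ.erase i).erase j).val = Multiset.map a
          ((Finset.univ.erase i).erase j).val := by
      refine Multiset.map_congr rfl fun k hk => ?_
      have hk' : k ∈ (Finset.univ.erase i).erase j := hk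
      rw [Finset.mem_erase, Finset.mem_erase] at hk'
      rw [Function.update_of_ne hk'.1, Function.update_of_ne hk'.2.1]
    rw [h2, ← Multiset.singleton_add, ← Multiset.singleton_add, ← add_assoc, add_comm]
    rfl
  · have h1 : ((((Finset.univ.erase i).erase j).toList).map a).map (fun x => x ^ 2) =
        (((Finset.univ.erase i).erase j).toList).map (fun k => a k ^ 2) := by
      rw [List.map_map]; rfl
    rw [h1, Finset.sum_map_toList]
    have h2 : ∑ k, a k ^ 2 = a i ^ 2 + (a j ^ 2 + ∑ k ∈ (Finset.univ.erase i).erase j, a k ^ 2) := by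
      rw [← Finset.add_sum_erase _ _ (Finset.mem_univ i),
        ← Finset.add_sum_erase (Finset.univ.erase i) _ hji]
    linarith

end Slab
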